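import Pool.Agent.APInt.Family
import Pool.Agent.APInt36.Main

/-!
The largest families of subsets of `{1, …, N}` in which any two members meet in an arithmetic
progression with at most five terms.
-/

set_option autoImplicit false

namespace Pool.Agent.Results.MP_7a6934_co.AtMostFive

open Pool.Agent.APInt Pool.Agent.APInt36 Finset

/-- any two different members of `F` share at most five elements -/
def ShareAtMostFive (F : Finset (Finset ℤ)) : Prop :=
  ∀ A ∈ F, ∀ B ∈ F, A ≠ B → (A ∩ B).card ≤ 5

lemma covered_le {N : ℕ} {F : Finset (Finset ℤ)} (hF : Admissible N F) :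
    (coveredPairs F).card ≤ N.choose 2 := by
  have h1 : coveredPairs F ⊆ (Icc (1 : ℤ) N).powersetCard 2 := by
    intro T hT
    obtain ⟨h2, A, hA, hTA⟩ := mem_coveredPairs.1 hT
    exact mem_powersetCard.2 ⟨hTA.trans (hF.1 A hA), h2⟩
  have h2 := card_le_card h1
  rw [card_powersetCard, Int.card_Icc] at h2
  simpa using h2

/-- the upper bound -/
lemma upper {N : ℕ} (hN : 1 ≤ N) {F : Finset (Finset ℤ)} (hF : Admissible N F)
    (h5 : ShareAtMostFive F) : F.card ≤ N.choose 2 + 1 + (N - 1) / 4 := by
  by_cases hx : ∃ x : ℤ, ∀ A ∈ F, x ∈ A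
  · obtain ⟨x, hxF⟩ := hx
    rcases F.eq_empty_or_nonempty with rfl | ⟨A, hA⟩
    · simp
    · have hx := mem_Icc.1 (hF.1 A hA (hxF A hA))
      obtain ⟨n, rfl⟩ : ∃ n : ℕ, x = n := ⟨x.toNat, by omega⟩
      have h1 := star_upper N n (by omega) (by omega) F hF hxF
      refine le_trans h1 ?_
      omega
  · have h1 := no_common hF h5 hx
    have h2 := covered_le hF
    omega

/-- For every `N ≥ 1` the largest number of subsets of `{1, …, N}`, any two of which meet in an
arithmetic progression with at most five terms, is `C(N, 2) + 1 + ⌊(N - 1) / 4⌋`. -/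
theorem result : ∀ N : ℕ, 1 ≤ N →
    IsGreatest {t : ℕ | ∃ F : Finset (Finset ℤ), Admissible N F ∧ ShareAtMostFive F ∧
      F.card = t} (N.choose 2 + 1 + (N - 1) / 4) := by
  intro N hN
  constructor
  · set x := (N + 1) / 2 with hxdef
    set D := min (x - 1) (N - x) / 2 with hD
    have hx : (x : ℤ) ∈ Icc (1 : ℤ) N := by rw [mem_Icc]; omega
    have h1 : 2 * (D : ℤ) + 1 ≤ x := by omega
    have h2 : (x : ℤ) + 2 * D ≤ N := by omega
    have hadm : Admissible N (starFam N x D) :=
      ⟨fun A hA => starFam_subset hx h1 h2 hA, fun A hA B hB hAB => starFam_inter hA hB hAB⟩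
    have hcard : ∀ A ∈ starFam N x D, A.card ≤ 5 := by
      intro A hA
      rcases mem_starFam hA with ⟨y, hy, rfl⟩ | ⟨y, hy, z, hz, _, _, _, _, rfl⟩ |
        ⟨d, hd, i, hi, j, hj, rfl⟩
      · exact le_trans card_le_two (by norm_num)
      · exact le_trans card_le_three (by norm_num)
      · rw [mem_Icc] at hd
        rw [card_seg _ hd.1]
        omega
    refine ⟨starFam N x D, hadm, ?_, ?_⟩
    · intro A hA B _ _
      exact le_trans (card_le_card inter_subset_left) (hcard A hA)
    · have h3 := card_starFam hx h1 h2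
      have h4 := upper hN hadm (fun A hA B _ _ =>
        le_trans (card_le_card inter_subset_left) (hcard A hA))
      omega
  · rintro t ⟨F, hF, h5, rfl⟩
    exact upper hN hF h5

end Pool.Agent.Results.MP_7a6934_co.AtMostFive
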