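import Pool.Agent.APInt.Family

/-!
The largest families of subsets of `{1, …, N}` with a common element in which any two members
meet in an arithmetic progression.
-/

set_option autoImplicit false

namespace Pool.Agent.Results.MP_7a6934_co.CommonElement

open Pool.Agent.APInt Finset

/-- the extremal value for families with the prescribed common element `x` -/
lemma fixed_element (N x : ℕ) (hx1 : 1 ≤ x) (hxN : x ≤ N) :
    IsGreatest {t : ℕ | ∃ F : Finset (Finset ℤ), Admissible N F ∧ (∀ A ∈ F, (x : ℤ) ∈ A) ∧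
      F.card = t} (N.choose 2 + 1 + min (x - 1) (N - x) / 2) := by
  constructor
  · set D := min (x - 1) (N - x) / 2 with hD
    have hx : (x : ℤ) ∈ Icc (1 : ℤ) N := by rw [mem_Icc]; omega
    have h1 : 2 * (D : ℤ) + 1 ≤ x := by omega
    have h2 : (x : ℤ) + 2 * D ≤ N := by omega
    have hadm : Admissible N (starFam N x D) :=
      ⟨fun A hA => starFam_subset hx h1 h2 hA, fun A hA B hB hAB => starFam_inter hA hB hAB⟩
    have hmem : ∀ A ∈ starFam N x D, (x : ℤ) ∈ A := fun A hA => x_mem_starFam hA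
    refine ⟨starFam N x D, hadm, hmem, ?_⟩
    exact le_antisymm (star_upper N x hx1 hxN _ hadm hmem) (card_starFam hx h1 h2)
  · rintro t ⟨F, hF, hxF, rfl⟩
    exact star_upper N x hx1 hxN F hF hxF

/-- For `1 ≤ x ≤ N`, the largest number of subsets of `{1, …, N}` all containing `x`, any two of
which meet in an arithmetic progression, is `C(N, 2) + 1 + ⌊min (x - 1, N - x) / 2⌋`; over all
`x` the largest such number is `C(N, 2) + 1 + ⌊(N - 1) / 4⌋`. -/
theorem result :
    (∀ N x : ℕ, 1 ≤ x → x ≤ N →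
      IsGreatest {t : ℕ | ∃ F : Finset (Finset ℤ), Admissible N F ∧
        (∀ A ∈ F, (x : ℤ) ∈ A) ∧ F.card = t}
        (N.choose 2 + 1 + min (x - 1) (N - x) / 2)) ∧
    (∀ N : ℕ, 1 ≤ N →
      IsGreatest {t : ℕ | ∃ F : Finset (Finset ℤ), Admissible N F ∧
        (∃ x : ℤ, ∀ A ∈ F, x ∈ A) ∧ F.card = t}
        (N.choose 2 + 1 + (N - 1) / 4)) := by
  refine ⟨fixed_element, ?_⟩
  intro N hN
  constructor
  · obtain ⟨F, hF, hxF, hc⟩ := (fixed_element N ((N + 1) / 2) (by omega) (by omega)).1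
    refine ⟨F, hF, ⟨_, hxF⟩, ?_⟩
    rw [hc]
    omega
  · rintro t ⟨F, hF, ⟨x, hxF⟩, rfl⟩
    rcases F.eq_empty_or_nonempty with rfl | ⟨A, hA⟩
    · simp
    · have hx := mem_Icc.1 (hF.1 A hA (hxF A hA))
      obtain ⟨n, rfl⟩ : ∃ n : ℕ, x = n := ⟨x.toNat, by omega⟩
      have h1 := (fixed_element N n (by omega) (by omega)).2 ⟨F, hF, hxF, rfl⟩
      refine le_trans h1 ?_
      omega

end Pool.Agent.Results.MP_7a6934_co.CommonElement
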