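import Pool.Agent.APLarge.Final

/-!
The largest families of subsets of `{1, …, N}` in which any two members meet in an arithmetic
progression, for all large `N`.
-/

set_option autoImplicit false

namespace Pool.Agent.Results.MP_7a6934_co.LargeN

open Pool.Agent.APInt Finset

/-- the lower bound, for every `N` -/
lemma lower (N : ℕ) (hN : 1 ≤ N) : ∃ F : Finset (Finset ℤ), Admissible N F ∧
    F.card = N.choose 2 + 1 + (N - 1) / 4 := by
  set x : ℕ := (N + 1) / 2 with hx
  set D := min (x - 1) (N - x) / 2 with hD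
  have hxm : (x : ℤ) ∈ Icc (1 : ℤ) N := by rw [mem_Icc]; omega
  have h1 : 2 * (D : ℤ) + 1 ≤ x := by omega
  have h2 : (x : ℤ) + 2 * D ≤ N := by omega
  have hadm : Admissible N (starFam N x D) :=
    ⟨fun A hA => starFam_subset hxm h1 h2 hA, fun A hA B hB hAB => starFam_inter hA hB hAB⟩
  have hmem : ∀ A ∈ starFam N x D, (x : ℤ) ∈ A := fun A hA => x_mem_starFam hA
  refine ⟨starFam N x D, hadm, ?_⟩
  have h3 := star_upper N x (by omega) (by omega) _ hadm hmem
  have h4 := card_starFam hxm h1 h2
  have h5 : (N - 1) / 4 = D := by omega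
  rw [h5]
  refine le_antisymm ?_ h4
  refine le_trans h3 ?_
  omega

/-- For all sufficiently large `N`, the largest number of distinct subsets of `{1, …, N}`, any
two of which meet in a nonempty arithmetic progression, is `C(N, 2) + 1 + ⌊(N - 1) / 4⌋`. -/
theorem result : ∃ N₀ : ℕ, ∀ N : ℕ, N₀ ≤ N →
    IsGreatest {t : ℕ | ∃ F : Finset (Finset ℤ), Admissible N F ∧ F.card = t}
      (N.choose 2 + 1 + (N - 1) / 4) := by
  obtain ⟨N0, h0⟩ := Pool.Agent.APLarge.upper_large
  refine ⟨max N0 1, ?_⟩
  intro N hN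
  constructor
  · exact lower N (le_trans (le_max_right _ _) hN)
  · rintro t ⟨F, hF, rfl⟩
    exact h0 N (le_trans (le_max_left _ _) hN) F hF

end Pool.Agent.Results.MP_7a6934_co.LargeN
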