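import Pool.Agent.APHM.Large

/-!
Families of subsets of `{1, …, N}` with pairwise intersections arithmetic progressions and no
common element: the exact maximum for all large `N`, and what the largest families look like.
-/

set_option autoImplicit false

namespace Pool.Agent.Results.MP_7a6934_co.NoCommonElement

open Pool.Agent.APInt Pool.Agent.APHM Finset

open Classical in
/-- (1) For all large `N` the largest number of subsets of `{1, …, N}`, any two of which meet in a
nonempty arithmetic progression, with no element common to all of them, is `C(N, 2) + 1`.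
(2) For all large `N` every family with more members has a common element.
(3) For all large `N` every largest family (`C(N, 2) + 1 + ⌊(N - 1) / 4⌋` members) has a common
element `x` with `⌊min(x - 1, N - x) / 2⌋ = ⌊(N - 1) / 4⌋`.
(4) For every `N`: if some `x` in `{1, …, N}` is missed by one or by two members, there are at most
`C(N, 2) + 1` members. -/
theorem result :
    (∃ N₀ : ℕ, ∀ N : ℕ, N₀ ≤ N →
      IsGreatest {t : ℕ | ∃ F : Finset (Finset ℤ), Admissible N F ∧ (∀ x : ℤ, ∃ A ∈ F, x ∉ A) ∧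
        F.card = t} (N.choose 2 + 1) ∧
      (∀ F : Finset (Finset ℤ), Admissible N F → N.choose 2 + 1 < F.card →
        ∃ x : ℤ, ∀ A ∈ F, x ∈ A) ∧
      (∀ F : Finset (Finset ℤ), Admissible N F → F.card = N.choose 2 + 1 + (N - 1) / 4 →
        ∃ x : ℕ, 1 ≤ x ∧ x ≤ N ∧ (∀ A ∈ F, (x : ℤ) ∈ A) ∧
          min (x - 1) (N - x) / 2 = (N - 1) / 4)) ∧
    (∀ (N : ℕ) (F : Finset (Finset ℤ)), Admissible N F → ∀ x ∈ Icc (1 : ℤ) N,
      1 ≤ (F.filter (fun A => x ∉ A)).card → (F.filter (fun A => x ∉ A)).card ≤ 2 →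
        F.card ≤ N.choose 2 + 1) := by
  refine ⟨?_, fun N F hF x hx h1 h2 => two_bound hF hx h1 h2⟩
  obtain ⟨N0, h0⟩ := no_common_large
  refine ⟨max N0 5, ?_⟩
  intro N hN
  have hN0 : N0 ≤ N := le_trans (le_max_left _ _) hN
  have hN5 : 5 ≤ N := le_trans (le_max_right _ _) hN
  have hcommon : ∀ F : Finset (Finset ℤ), Admissible N F → N.choose 2 + 1 < F.card →
      ∃ x : ℤ, ∀ A ∈ F, x ∈ A := by
    intro F hF hc
    by_contra hcon
    push Not at hcon
    have := h0 N hN0 F hF hcon
    omega
  refine ⟨⟨⟨exFam N, ex_admissible N (by omega), ex_no_common N (by omega),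
    card_ex N (by omega)⟩, ?_⟩, hcommon, ?_⟩
  · rintro t ⟨F, hF, hcom, rfl⟩
    exact h0 N hN0 F hF hcom
  · intro F hF hc
    obtain ⟨x, hx⟩ := hcommon F hF (by omega)
    obtain ⟨A, hA⟩ := card_pos.1 (show 0 < F.card by omega)
    have hxA := mem_Icc.1 (hF.1 A hA (hx A hA))
    obtain ⟨m, rfl⟩ : ∃ m : ℕ, (m : ℤ) = x := ⟨x.toNat, Int.toNat_of_nonneg (by omega)⟩
    have h1 : 1 ≤ m := by omega
    have h2 : m ≤ N := by omega
    have h3 := star_upper N m h1 h2 F hF hx
    refine ⟨m, h1, h2, hx, ?_⟩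
    have h4 : min (m - 1) (N - m) / 2 ≤ (N - 1) / 4 := by omega
    omega

end Pool.Agent.Results.MP_7a6934_co.NoCommonElement
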